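import Mathlib

/-! CREW IS, batch 3: numeric lemmas for DOH (helper38). -/

set_option autoImplicit false

namespace H38.IS

theorem num_aux (d : ℕ) (hd : 100 ≤ d) : 40 * ((d : ℝ) + 1) * (3 / 5 : ℝ) ^ (d - 2) ≤ 1 := by
  induction d, hd using Nat.le_induction with
  | base => norm_num
  | succ n hn ih =>
    have h1 : n + 1 - 2 = (n - 2) + 1 := by omega
    rw [h1, pow_succ]
    have h2 : (0 : ℝ) < (3 / 5 : ℝ) ^ (n - 2) := by positivity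
    have h3 : (100 : ℝ) ≤ n := by exact_mod_cast hn
    push_cast
    nlinarith [mul_nonneg (by linarith : (0 : ℝ) ≤ (n : ℝ) - 1) h2.le]

theorem num2 (d : ℕ) (hd : 100 ≤ d) : 40 * ((d : ℝ) + 1) * (3 / 5 : ℝ) ^ (d - 2) ≤ 1 := num_aux d hd

/-- with the larger base `9/10 ≥ (3/5) √2` -/
theorem num_aux2 (d : ℕ) (hd : 100 ≤ d) : ((d : ℝ) + 1) * (3 / 5 : ℝ) ^ (d - 1) * (3 / 2 : ℝ) ^ d ≤ 1 / 4 := by
  have key : ∀ n : ℕ, ((n : ℝ) + 101) * (3 / 5 : ℝ) ^ (n + 99) * (3 / 2 : ℝ) ^ (n + 100) ≤ 1 / 4 := by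
    intro n
    have e : ((n : ℝ) + 101) * (3 / 5 : ℝ) ^ (n + 99) * (3 / 2 : ℝ) ^ (n + 100) =
        ((n : ℝ) + 101) * (9 / 10 : ℝ) ^ (n + 99) * (3 / 2) := by
      rw [show n + 100 = (n + 99) + 1 by ring, pow_succ (3 / 2 : ℝ), show (9 / 10 : ℝ) = 3 / 5 * (3 / 2) by norm_num, mul_pow]
      ring
    rw [e]
    clear e
    induction n with
    | zero => norm_num
    | succ n ih =>
      have h2 : (0 : ℝ) < (9 / 10 : ℝ) ^ (n + 99) := by positivity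
      have h3 : n + 1 + 99 = (n + 99) + 1 := by ring
      rw [h3, pow_succ]
      push_cast
      nlinarith [mul_nonneg (Nat.cast_nonneg n : (0 : ℝ) ≤ n) h2.le]
  obtain ⟨n, rfl⟩ := Nat.exists_eq_add_of_le hd
  have h1 := key n
  have h2 : 100 + n - 1 = n + 99 := by omega
  have h3 : 100 + n = n + 100 := by ring
  rw [h2, h3]
  push_cast
  calc ((n : ℝ) + 100 + 1) * (3 / 5 : ℝ) ^ (n + 99) * (3 / 2 : ℝ) ^ (n + 100)
      = ((n : ℝ) + 101) * (3 / 5 : ℝ) ^ (n + 99) * (3 / 2 : ℝ) ^ (n + 100) := by ring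
    _ ≤ 1 / 4 := h1

theorem num1 (K d : ℕ) (hK : 100 ≤ K) (hd : K ≤ d) :
    ((d : ℝ) + 1) * (3 / 5 : ℝ) ^ (d - 1) * 2 ^ (K / 2) ≤ 1 / 4 := by
  have h0 := num_aux2 d (hK.trans hd)
  have h1 : (2 : ℝ) ^ (K / 2) ≤ (3 / 2 : ℝ) ^ d := by
    calc (2 : ℝ) ^ (K / 2) ≤ ((3 / 2 : ℝ) ^ 2) ^ (K / 2) := pow_le_pow_left₀ (by norm_num) (by norm_num) _
      _ = (3 / 2 : ℝ) ^ (2 * (K / 2)) := by rw [← pow_mul]
      _ ≤ (3 / 2 : ℝ) ^ d := pow_le_pow_right₀ (by norm_num) (by omega)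
  have h2 : (0 : ℝ) ≤ ((d : ℝ) + 1) * (3 / 5 : ℝ) ^ (d - 1) := by positivity
  exact (mul_le_mul_of_nonneg_left h1 h2).trans h0

end H38.IS
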